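import Pool.Agent.W528.HB.Stm

/-! Project HB (helper883): Stickelberger's inequality by digits. -/

set_option autoImplicit false

namespace Pool.Agent.W883.HB.DG

open Pool.Agent.W528.HB Finset

lemma g_pow {c : ℕ} [Fact c.Prime] {L : Type} [Field L] [Fintype L] [CharP L c]
    (χ : MulChar L (PadicAlgCl c)) (ψ : AddChar L (PadicAlgCl c)) (h : ∀ y, ψ (y ^ c) = ψ y) :
    gaussSum (χ ^ c) ψ = gaussSum χ ψ := by
  have hc : c ≠ 0 := (Fact.out : c.Prime).ne_zero
  have hinj : Function.Injective (fun y : L => y ^ c) := frobenius_inj L c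
  have hbij : Function.Bijective (fun y : L => y ^ c) :=
    Finite.injective_iff_bijective.1 hinj
  unfold gaussSum
  rw [← hbij.sum_comp (fun y => χ y * ψ y)]
  refine Finset.sum_congr rfl fun y _ => ?_
  rw [MulChar.pow_apply' χ hc, h, map_pow]

lemma g_one {c : ℕ} [Fact c.Prime] {L : Type} [Field L] [Fintype L] [CharP L c]
    (ψ : AddChar L (PadicAlgCl c)) (h : ψ.IsPrimitive) :
    ‖gaussSum (1 : MulChar L (PadicAlgCl c)) ψ‖ = 1 := by
  classical
  have h1 : gaussSum (1 : MulChar L (PadicAlgCl c)) ψ = -1 := by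
    have hne : ψ ≠ 0 := by
      intro h0
      have := h one_ne_zero
      rw [h0] at this
      apply this
      ext y
      simp
    have h2 : ∑ y, ψ y = 0 := AddChar.sum_eq_zero_iff_ne_zero.2 hne
    unfold gaussSum
    have h3 : ∀ y : L, (1 : MulChar L (PadicAlgCl c)) y * ψ y = ψ y - if y = 0 then 1 else 0 := by
      intro y
      by_cases hy : y = 0
      · subst hy
        rw [if_pos rfl, MulChar.map_zero, zero_mul, AddChar.map_zero_eq_one, sub_self]
      · rw [if_neg hy, MulChar.one_apply (Ne.isUnit hy), one_mul, sub_zero]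
    rw [Finset.sum_congr rfl (fun y _ => h3 y), Finset.sum_sub_distrib, h2,
      Finset.sum_ite_eq' Finset.univ (0 : L), if_pos (Finset.mem_univ _), zero_sub]
  rw [h1, norm_neg, norm_one]

/-- `DG` -/
theorem main : SA → DG := by
  intro hSA c hc L _ _ _ w ψ hψ hψc hw n
  have hc1 : 1 < c := (Fact.out : c.Prime).one_lt
  set χ : MulChar L (PadicAlgCl c) := w⁻¹ with hχ
  set g1 : ℝ := ‖gaussSum χ ψ‖ with hg1
  have hg0 : 0 ≤ g1 := norm_nonneg _
  have hpow : ∀ d : ℕ, g1 ^ d ≤ ‖gaussSum (χ ^ d) ψ‖ := by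
    intro d
    induction d with
    | zero =>
      rw [pow_zero, pow_zero, g_one ψ hψ]
    | succ d ih =>
      rw [pow_succ, pow_succ]
      exact (mul_le_mul_of_nonneg_right ih hg0).trans (hSA c L (χ ^ d) χ ψ hψ)
  have hdig : ∀ m : ℕ, g1 ^ (Nat.digits c m).sum ≤ ‖gaussSum (χ ^ m) ψ‖ := by
    intro m
    induction m using Nat.strong_induction_on with
    | _ m ih =>
      rcases Nat.eq_zero_or_pos m with hm | hm
      · subst hm
        rw [Nat.digits_zero, List.sum_nil, pow_zero, pow_zero, g_one ψ hψ]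
      · rw [Nat.digits_def' hc1 hm, List.sum_cons, pow_add]
        have h1 : χ ^ m = χ ^ (m % c) * (χ ^ (m / c)) ^ c := by
          rw [← pow_mul, ← pow_add]
          congr 1
          rw [mul_comm (m / c) c]
          exact (Nat.mod_add_div m c).symm
        rw [h1]
        refine le_trans ?_ (hSA c L _ _ ψ hψ)
        rw [g_pow _ ψ hψc]
        exact mul_le_mul (hpow _) (ih _ (Nat.div_lt_self hm hc1)) (by positivity) (norm_nonneg _)
  have hinv : (w ^ n)⁻¹ = χ ^ n := by rw [hχ, inv_pow]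
  rw [hinv]
  calc ‖((c : ℕ) : PadicAlgCl c)‖ ^ (Nat.digits c n).sum
      ≤ (g1 ^ (c - 1)) ^ (Nat.digits c n).sum := pow_le_pow_left₀ (norm_nonneg _) hw _
    _ = (g1 ^ (Nat.digits c n).sum) ^ (c - 1) := by rw [← pow_mul, ← pow_mul, mul_comm]
    _ ≤ ‖gaussSum (χ ^ n) ψ‖ ^ (c - 1) := pow_le_pow_left₀ (by positivity) (hdig n) _

end Pool.Agent.W883.HB.DG
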